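import Pool.Agent.Run7.h606.DB.Gal

/-!
# Gal's conjecture for centrally symmetric flag homology spheres

The clique complex of a finite graph `G` is a homology `(d - 1)`-sphere over `F` if `Sph F d G`; its gamma-vector is
`gam d G`. `G` is centrally symmetric (`CSym G`) if it has an involutive automorphism `σ` such that no vertex is equal
or adjacent to its image; then `σ` maps no nonempty face of the clique complex to itself, so that it acts freely on the
sphere.

We show that Gal's conjecture (in all dimensions up to a given one) and the conjecture of Charney and Davis (in a given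
dimension) are equivalent to their restrictions to the centrally symmetric spheres with at least `M` vertices, for any
number `M`; and if one of them fails, then there are centrally symmetric spheres with arbitrarily many vertices for
which it fails, the negative gamma number being at most `- c` times the number of vertices.

Proof. Unfolding: the double `DG G v` is the boundary of the ball `G - v` glued to a second copy along the link of `v`.
Starting with a counterexample we double many times to get many vertices, and then once at each vertex of a facet `T`.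
The result is tiled by `2 ^ |T|` copies of the complement of the vertices of `T`; the composition of the `|T|`
reflections is an involution `σ` which fixes the vertices that are adjacent to all the vertices of `T`, and there are
none.
-/

set_option autoImplicit false

namespace Pool.Agent.Results.MP_19e880_co.CentralSymmetry

open Pool.Agent.R580.CD Pool.Agent.Run7.h606.DB

/-- **Reduction to centrally symmetric spheres.** (1) Gal's conjecture for the flag homology spheres over `F` of
dimension less than `d` holds if it holds for those which are centrally symmetric and have at least `M` vertices.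
(2) The same for the top coefficient in a given odd dimension `2 m - 1` (the conjecture of Charney and Davis).
(3) If `γ_i(G) < 0` for a flag homology `(d - 1)`-sphere `G` and Gal's conjecture holds in the smaller dimensions, or
`d = 2 i`, then there is `c > 0` such that for all `M` there is a centrally symmetric flag homology `(d - 1)`-sphere `H`
with at least `M` vertices and with `γ_i(H) ≤ - c f_0(H)`. -/
theorem result (F : Type) [Field F] :
    (∀ d M : ℕ, (∀ d' ≤ d, Gal F d') ↔ ∀ d' ≤ d, ∀ (V : Type) [Fintype V] [LinearOrder V] (G : SimpleGraph V),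
      Sph F d' G → CSym G → M ≤ Fintype.card V → ∀ i, 0 ≤ gam d' G i) ∧
    (∀ m M : ℕ, (∀ (V : Type) [Fintype V] [LinearOrder V] (G : SimpleGraph V), Sph F (2 * m) G →
        0 ≤ gam (2 * m) G m) ↔
      ∀ (V : Type) [Fintype V] [LinearOrder V] (G : SimpleGraph V), Sph F (2 * m) G → CSym G → M ≤ Fintype.card V →
        0 ≤ gam (2 * m) G m) ∧
    (∀ (d i : ℕ) (V : Type) [Fintype V] [LinearOrder V] (G : SimpleGraph V), ((∀ d' < d, Gal F d') ∨ d = 2 * i) →
      Sph F d G → gam d G i < 0 → ∃ c : ℚ, 0 < c ∧ ∀ M : ℕ,
        ∃ (U : Type) (_ : Fintype U) (_ : LinearOrder U) (H : SimpleGraph U), Sph F d H ∧ CSym H ∧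
          M ≤ Fintype.card U ∧ (gam d H i : ℚ) ≤ - c * Fintype.card U) := by
  have key : ∀ (d i : ℕ) (V : Type) [Fintype V] [LinearOrder V] (G : SimpleGraph V),
      ((∀ d' < d, Gal F d') ∨ d = 2 * i) → Sph F d G → gam d G i < 0 → ∃ c : ℚ, 0 < c ∧ ∀ M : ℕ,
        ∃ (U : Type) (_ : Fintype U) (_ : LinearOrder U) (H : SimpleGraph U), Sph F d H ∧ CSym H ∧
          M ≤ Fintype.card U ∧ (gam d H i : ℚ) ≤ - c * Fintype.card U := by
    rintro d i V _ _ G (h | rfl) hS hneg
    · obtain ⟨c, hc, h1⟩ := gal_csym hS h hneg
      refine ⟨c, hc, fun M => ?_⟩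
      obtain ⟨U, i1, i2, H, h2, h3, h4, h5⟩ := h1 M
      exact ⟨U, i1, i2, H, h2, h4, h3, h5⟩
    · obtain ⟨c, hc, h1⟩ := top_csym hS hneg
      refine ⟨c, hc, fun M => ?_⟩
      obtain ⟨U, i1, i2, H, h2, h3, h4, h5⟩ := h1 M
      exact ⟨U, i1, i2, H, h2, h4, h3, h5⟩
  have key2 : ∀ (d i M : ℕ) (V : Type) [Fintype V] [LinearOrder V] (G : SimpleGraph V),
      ((∀ d' < d, Gal F d') ∨ d = 2 * i) → Sph F d G → gam d G i < 0 →
        ∃ (U : Type) (_ : Fintype U) (_ : LinearOrder U) (H : SimpleGraph U), Sph F d H ∧ CSym H ∧
          M ≤ Fintype.card U ∧ gam d H i < 0 := by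
    intro d i M V _ _ G h hS hneg
    obtain ⟨c, hc, h1⟩ := key d i V G h hS hneg
    obtain ⟨U, i1, i2, H, h2, h3, h4, h5⟩ := h1 (M + 1)
    refine ⟨U, i1, i2, H, h2, h3, by omega, ?_⟩
    have h6 : (0 : ℚ) < Fintype.card U := by
      have : 0 < Fintype.card U := by omega
      exact_mod_cast this
    have h7 : (gam d H i : ℚ) < 0 := by nlinarith
    exact_mod_cast h7
  refine ⟨fun d M => ⟨fun h d' hd' V _ _ G hS _ _ i => h d' hd' V G hS i, fun h d' => ?_⟩, fun m M =>
    ⟨fun h V _ _ G hS _ _ => h V G hS, fun h V _ _ G hS => ?_⟩, key⟩
  · induction d' using Nat.strong_induction_on with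
    | _ d' ih =>
      intro hd' V _ _ G hS i
      by_contra hcon
      push Not at hcon
      obtain ⟨U, i1, i2, H, h2, h3, h4, h5⟩ := key2 d' i M V G (Or.inl fun d'' hd'' => ih d'' hd'' (by omega)) hS hcon
      exact absurd (h d' hd' U H h2 h3 h4 i) (not_le.2 h5)
  · by_contra hcon
    push Not at hcon
    obtain ⟨U, i1, i2, H, h2, h3, h4, h5⟩ := key2 (2 * m) m M V G (Or.inr rfl) hS hcon
    exact absurd (h U H h2 h3 h4) (not_le.2 h5)

end Pool.Agent.Results.MP_19e880_co.CentralSymmetry
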