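import Pool.Agent.Run7.h714.DU.Gen

/-!
# A lower bound for `γ_3` of coloured flag homology spheres: `γ_2 + 2 γ_3 ≥ 0` for balanced flag 5-spheres

`Sph F d G` says that the complex of the cliques of the finite graph `G` (these are all finite flag complexes) is a
homology `(d - 1)`-sphere over the field `F`: the link of every simplex `T`, the empty one included, has the reduced
homology of the sphere of dimension `d - 1 - |T|`. `fp G A` is the face polynomial `∑ x^|T|` of the full subcomplex
on `A`, `lnk G T` is the vertex set of the link of `T`, and the `γ`-vector of a homology `(d - 1)`-sphere is given by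
`fp = ∑ γ_i (x + x^2)^i (1 + 2x)^(d-2i)` (`IsGam`, `gam`; `gammaL` for the link of `T`).

**Results.** Let `L` be a flag complex which is a homology sphere over the reals and over the field with two elements
(for instance any flag triangulation of a sphere).

1. If `L` has dimension 5, and `I` is a set of vertices such that the full subcomplex on `I` can be properly
coloured by three colours, then `γ_2 + γ_3 ≥ (1/2) ∑_(v ∈ I) γ_2(lk v) - (1/4) ∑_(e ⊆ I) γ_2(lk e)`, the second sum over
the edges in `I`. If `I` contains no triangle of `L` then this holds for all flag homology 5-spheres over the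
reals (and no condition over the field with two elements).
2. If `L` has dimension 5 and a proper colouring by `k` colours then
`C(k, 3) γ_3 + C(k-2, 3) (4 γ_2 + 3 γ_3) ≥ 0`. For `k = 6` (balanced spheres) this is `γ_2 + 2 γ_3 ≥ 0`. (The
conjecture of Charney and Davis is `γ_3 ≥ 0`; `4 γ_2 + 3 γ_3 ≥ 0` follows from the theorem of Davis and Okun.)
3. If `L` has dimension `d - 1 ≥ 5` and a proper colouring by `k` colours then
`C(k+6-d, 3) τ_3 + C(k+4-d, 3) C(d-4, 2) τ_2 ≥ 0`, where `τ_l = ∑ C(i, l) γ_i / 4^i`; for balanced spheres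
(`k = d`) this is `5 τ_3 + C(d-4, 2) τ_2 ≥ 0`.

Proof of 1. Let `W_A` be the right-angled Coxeter group of a full subcomplex `A`, and `b_i(A)` its `ℓ²`-Betti numbers.
Let `K` be a flag homology 4-sphere, `w` a vertex, `S` its link, `A ⊆ K \ w`. Then
`b_3(A ∪ w) ≤ b_3(A) + (1/4) χ(lk w)`: one half since `w` acts by `-1` on the relative chains, and one half since, by
Poincaré-Lefschetz duality for `K \ w`, half of `H_2(S)` dies in `K \ w`. If `A₀` is properly coloured by three
colours then `b_3(A₀) = 0` by the van Kampen obstruction mod 2. So `b_3(A) ≤ (1/4) ∑_(w ∈ A \ A₀) χ(lk w)` for all full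
subcomplexes `A ⊇ A₀`, hence `b_4(L) ≤ (1/8) ∑ χ(lk e)` for a 5-sphere `L`, the sum over the edges `e` without
vertices in `A₀`, and `-χ(L) = b_3 - b_2 - b_4 ≥ -2 b_4` by duality. 2. and 3. are averages over the triples of colours.
-/

set_option autoImplicit false

namespace Pool.Agent.Results.MP_19e880_co.ColouredGammaThree

open Pool.Agent.R580.CD

/-- The `γ`-vector of the link of the simplex `T` of the flag homology `(d - 1)`-sphere given by `G`:
the integers `γ_i` with `∑ x^|R| = ∑ γ_i (x + x^2)^i (1 + 2x)^(d-|T|-2i)` and `γ_i = 0` for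
`2 i > d - |T|`, where `R` runs over the simplices of the link (see the first part of the theorem). -/
noncomputable def gammaL {V : Type} [Fintype V] [LinearOrder V] (d : ℕ) (G : SimpleGraph V)
    (T : Finset V) : ℕ → ℤ := Pool.Agent.N613.RP.gv (d - T.card) (fp G (lnk G T))

/-- `τ_l = ∑ C(i, l) γ_i / 4^i`, the sum over `0 ≤ i ≤ d / 2` -/
noncomputable def tau {V : Type} [Fintype V] [LinearOrder V] (d l : ℕ) (G : SimpleGraph V) : ℚ :=
  ∑ i ∈ Finset.range (d / 2 + 1), (i.choose l : ℚ) * gam d G i / 4 ^ i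

open Classical in
/-- the edges in `I` -/
noncomputable def edgesIn {V : Type} (G : SimpleGraph V) (I : Finset V) : Finset (Finset V) :=
  (I.powersetCard 2).filter fun e => G.IsClique (e : Set V)

open Classical in
theorem edgesIn_eq {V : Type} (G : SimpleGraph V) (I : Finset V) :
    edgesIn G I = Pool.Agent.Run7.h714.DU.cls G I 2 := by
  ext e
  rw [Pool.Agent.Run7.h714.DU.mem_cls]
  unfold edgesIn
  rw [Finset.mem_filter, Finset.mem_powersetCard]

/-- **coloured flag homology spheres** -/
theorem result :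
    -- the gamma-vectors of the links
    (∀ (d : ℕ) (V : Type) [Fintype V] [LinearOrder V] (G : SimpleGraph V), Sph ℝ d G →
      ∀ T : Finset V, G.IsClique (T : Set V) → IsGam (d - T.card) (fp G (lnk G T)) (gammaL d G T)) ∧
    -- sets of vertices without triangles, or coloured by three colours, in dimension 5
    (∀ (V : Type) [Fintype V] [LinearOrder V] (G : SimpleGraph V), Sph ℝ 6 G → ∀ I : Finset V,
      ((∀ T ⊆ I, G.IsClique (T : Set V) → T.card ≠ 3) ∨
        (Sph (ZMod 2) 6 G ∧ ∃ c : V → Fin 3, ∀ u ∈ I, ∀ w ∈ I, G.Adj u w → c u ≠ c w)) →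
      1 / 2 * ∑ v ∈ I, (gammaL 6 G {v} 2 : ℚ) - 1 / 4 * ∑ e ∈ edgesIn G I, (gammaL 6 G e 2 : ℚ) ≤
        gam 6 G 2 + gam 6 G 3) ∧
    -- coloured spheres of dimension 5
    (∀ (V : Type) [Fintype V] [LinearOrder V] (G : SimpleGraph V), Sph ℝ 6 G → Sph (ZMod 2) 6 G →
      ∀ (k : ℕ) (c : V → Fin k), (∀ u w, G.Adj u w → c u ≠ c w) →
        0 ≤ (k.choose 3 : ℤ) * gam 6 G 3 + (k - 2).choose 3 * (4 * gam 6 G 2 + 3 * gam 6 G 3)) ∧
    -- coloured spheres of all dimensions
    (∀ d : ℕ, 6 ≤ d → ∀ (V : Type) [Fintype V] [LinearOrder V] (G : SimpleGraph V), Sph ℝ d G →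
      Sph (ZMod 2) d G → ∀ (k : ℕ) (c : V → Fin k), (∀ u w, G.Adj u w → c u ≠ c w) →
        0 ≤ ((k + 6 - d).choose 3 : ℚ) * tau d 3 G + ((k + 4 - d).choose 3 : ℚ) * (d - 4).choose 2 * tau d 2 G) := by
  classical
  have hall : ∀ d : ℕ, 6 ≤ d → ∀ (V : Type) [Fintype V] [LinearOrder V] (G : SimpleGraph V), Sph ℝ d G →
      Sph (ZMod 2) d G → ∀ (k : ℕ) (c : V → Fin k), (∀ u w, G.Adj u w → c u ≠ c w) →
        0 ≤ ((k + 6 - d).choose 3 : ℚ) * tau d 3 G +
          ((k + 4 - d).choose 3 : ℚ) * (d - 4).choose 2 * tau d 2 G := by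
    intro d hd V _ _ G hG hG2 k c hc
    have h1 := Pool.Agent.Run7.h714.DU.tau_col hd (Pool.Agent.Run7.h714.DU.hsph_iff.1 hG) hG2
      (fun v => (c v : ℕ)) (Finset.range k) (fun v => Finset.mem_range.2 (c v).2)
      (fun u w huw h => hc u w huw (Fin.ext h)) (gam_spec hG).1
    rw [Finset.card_range] at h1
    exact h1
  refine ⟨?_, ?_, ?_, hall⟩
  · intro d V _ _ G hG T hT
    exact Pool.Agent.N613.RP.link_gam hG hT
  · intro V _ _ G hG I hI
    have hS := Pool.Agent.Run7.h714.DU.hsph_iff.1 hG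
    have hB : ∀ v, v ∈ Finset.univ \ I ↔ v ∉ I := fun v => by simp
    have h1 : 4 * Pool.Agent.W907.SG.chiW G ≤ Pool.Agent.Run7.h714.DU.cT G (Finset.univ \ I) 2 := by
      rcases hI with hI | ⟨hG2, c, hc⟩
      · refine Pool.Agent.Run7.h714.DU.chi_triangle hS (I : Set V) (fun T hT hTI => ?_) _ (fun v => ?_)
        · exact hI T (Finset.coe_subset.1 hTI) hT
        · rw [hB, Finset.mem_coe]
      · refine Pool.Agent.Run7.h714.DU.chi_three hS hG2 (I : Set V) c (fun u hu w hw => ?_) _ (fun v => ?_)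
        · exact hc u (Finset.mem_coe.1 hu) w (Finset.mem_coe.1 hw)
        · rw [hB, Finset.mem_coe]
    have h2 := Pool.Agent.Run7.h714.DU.gam_set hG I (Finset.univ \ I) hB h1
    rw [edgesIn_eq]
    show 1 / 2 * ∑ v ∈ I, (Pool.Agent.N613.RP.gv (6 - ({v} : Finset V).card) (fp G (lnk G {v})) 2 : ℚ) -
      1 / 4 * ∑ e ∈ Pool.Agent.Run7.h714.DU.cls G I 2,
        (Pool.Agent.N613.RP.gv (6 - e.card) (fp G (lnk G e)) 2 : ℚ) ≤ _
    linarith
  · intro V _ _ G hG hG2 k c hc
    have h1 := hall 6 le_rfl V G hG hG2 k c hc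
    unfold tau at h1
    have e : 6 / 2 + 1 = 4 := rfl
    have e1 : k + 6 - 6 = k := by omega
    have e2 : k + 4 - 6 = k - 2 := by omega
    rw [e, e1, e2, Finset.sum_range_succ, Finset.sum_range_succ, Finset.sum_range_succ, Finset.sum_range_one,
      Finset.sum_range_succ, Finset.sum_range_succ, Finset.sum_range_succ, Finset.sum_range_one] at h1
    norm_num [Nat.choose] at h1
    have h2 : (0 : ℚ) ≤ (((k.choose 3 : ℤ) * gam 6 G 3 + (k - 2).choose 3 * (4 * gam 6 G 2 + 3 * gam 6 G 3) : ℤ) : ℚ) := by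
      push_cast
      linarith
    exact_mod_cast h2

end Pool.Agent.Results.MP_19e880_co.ColouredGammaThree
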