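import Pool.Agent.Run7.h714.DU.Gam2

/-!
# A lower bound for `γ_3` of flag homology spheres: `γ_2 + γ_3 ≥ 0` in dimension 5

`Sph ℝ d G` says that the complex of the cliques of the finite graph `G` (these are all finite flag complexes) is a
real homology `(d - 1)`-sphere: the link of every simplex `T`, the empty one included, has the reduced real homology
of the sphere of dimension `d - 1 - |T|`. `fp G A` is the face polynomial `∑ x^|T|` of the full subcomplex on `A`,
`lnk G T` is the vertex set of the link of `T`, and the `γ`-vector of a homology `(d - 1)`-sphere is given by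
`fp = ∑ γ_i (x + x^2)^i (1 + 2x)^(d-2i)` (`IsGam`).

**Results** (no hypothesis besides being a flag homology sphere).

1. `γ_2 + γ_3 ≥ 0` for all flag homology 5-spheres. Summing the known `γ_2 ≥ 0` (Davis and Okun) over the links of
the edges gives only `4 γ_2 + 3 γ_3 ≥ 0`; the conjecture of Charney and Davis is `γ_3 ≥ 0`.
2. `τ_3 + C(d-4, 2) τ_2 ≥ 0` for all flag homology `(d - 1)`-spheres, `d ≥ 6`, where
`τ_l = ∑ C(i, l) γ_i / 4^i` are the Taylor coefficients of the `γ`-polynomial at `1/4` (for `d = 6` this is 1.). Gal's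
conjecture implies `τ_3 ≥ 0`; `τ_2 ≥ 0` is known.
3. Corrections of 2. by the links: for a set `I` of vertices each of which is adjacent to all the others in `I` with at
most one exception, the sum of `(-1/2)^|T|` times the same form for the link of `T`, over the simplices `T ⊆ I`, is
nonnegative. For instance `2 (γ_2 + γ_3) ≥ γ_2(lk v) + γ_2(lk w)` for any two vertices `v ≠ w` of a flag homology
5-sphere which are not adjacent.

Proof of 1. Let `W_A` be the right-angled Coxeter group of a full subcomplex `A` and `b_i(A)` its `ℓ²`-Betti numbers;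
`∑ (-1)^i b_i(A) = χ(A) = ∑_(T ⊆ A) (-1/2)^|T|`. Let `K` be a flag homology 4-sphere, `w` a vertex, `S` its link,
`D = K \ w`, `B = S ∩ A` for some `A ⊆ D`. Then `b_3(A ∪ w) ≤ b_3(A) + (1/2) dim ker (H_2(B) → H_2(A))` (one half
since `w` acts by `-1` on the relative chains), and this kernel injects into the kernel of `H_2(S) → H_2(D)`, since
the `ℓ²`-homology of `S` (a flag 3-sphere) and its full subcomplexes vanishes in degrees `> 2`. By Poincaré-Lefschetz
duality for `(D, S)` half of `H_2(S)` dies in `D`. So `b_3(A) ≤ (1/4) ∑_(w ∈ A) χ(lk w)` for all `A ⊆ K`. In a flag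
homology 5-sphere `L` with ordered vertices this gives `b_4(L) ≤ (1/2) ∑_v b_3({u ∈ lk v, u < v}) ≤ (1/8) ∑_e χ(lk e)`,
the sum over the edges, and `-χ(L) = b_3 - b_2 - b_4 ≥ -2 b_4` by duality. All this is done with the Betti numbers of
finite quotients (Lück approximation); the duality for `(D, S)` is obtained by letting `w` act by `± 1`.
-/

set_option autoImplicit false

namespace Pool.Agent.Results.MP_19e880_co.GammaTwoPlusThree

open Pool.Agent.R580.CD

/-- The `γ`-vector of the link of the simplex `T` of the flag homology `(d - 1)`-sphere given by `G`: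
the integers `γ_i` with `∑ x^|R| = ∑ γ_i (x + x^2)^i (1 + 2x)^(d-|T|-2i)` and `γ_i = 0` for
`2 i > d - |T|`, where `R` runs over the simplices of the link (zero if there are none; see the first
part of the theorem). -/
noncomputable def gammaL {V : Type} [Fintype V] [LinearOrder V] (d : ℕ) (G : SimpleGraph V)
    (T : Finset V) : ℕ → ℤ := Pool.Agent.N613.RP.gv (d - T.card) (fp G (lnk G T))

/-- `τ_l = ∑ C(i, l) γ_i / 4^i` of the link of `T`, the sum over `0 ≤ i ≤ d / 2` -/
noncomputable def tau {V : Type} [Fintype V] [LinearOrder V] (d l : ℕ) (G : SimpleGraph V) (T : Finset V) : ℚ :=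
  ∑ i ∈ Finset.range (d / 2 + 1), (i.choose l : ℚ) * gammaL d G T i / 4 ^ i

/-- every vertex of `I` is adjacent to all other vertices of `I` with at most one exception -/
def Tame {V : Type} (G : SimpleGraph V) (I : Finset V) : Prop :=
  ∀ u ∈ I, ∀ v ∈ I, ∀ w ∈ I, v ≠ u → w ≠ u → ¬ G.Adj u v → ¬ G.Adj u w → v = w

open Classical in
/-- the sum of `(-1/2)^|T| g T` over the simplices `T ⊆ I` -/
noncomputable def refl {V : Type} (G : SimpleGraph V) (I : Finset V) (g : Finset V → ℚ) : ℚ :=
  ∑ T ∈ I.powerset, if G.IsClique (T : Set V) then (-1 / 2) ^ T.card * g T else 0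

/-- **`γ_2 + γ_3 ≥ 0` in dimension 5, and its consequences in all dimensions** -/
theorem result :
    -- the gamma-vectors of the links
    (∀ (d : ℕ) (V : Type) [Fintype V] [LinearOrder V] (G : SimpleGraph V), Sph ℝ d G →
      gammaL d G ∅ = gam d G ∧ ∀ T : Finset V, G.IsClique (T : Set V) →
        IsGam (d - T.card) (fp G (lnk G T)) (gammaL d G T)) ∧
    -- dimension 5
    (∀ (V : Type) [Fintype V] [LinearOrder V] (G : SimpleGraph V), Sph ℝ 6 G →
      0 ≤ gam 6 G 2 + gam 6 G 3 ∧
      (∀ v w : V, w ≠ v → ¬ G.Adj v w → gammaL 6 G {v} 2 + gammaL 6 G {w} 2 ≤ 2 * (gam 6 G 2 + gam 6 G 3)) ∧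
      ∀ I : Finset V, Tame G I → 0 ≤ refl G I (fun T => (gammaL 6 G T 2 : ℚ) + gammaL 6 G T 3)) ∧
    -- all dimensions
    (∀ d : ℕ, 6 ≤ d → ∀ (V : Type) [Fintype V] [LinearOrder V] (G : SimpleGraph V), Sph ℝ d G →
      0 ≤ tau d 3 G ∅ + (d - 4).choose 2 * tau d 2 G ∅ ∧
      ∀ I : Finset V, Tame G I → 0 ≤ refl G I (fun T => tau d 3 G T + (d - 4).choose 2 * tau d 2 G T)) := by
  classical
  have hgam : ∀ (d : ℕ) (V : Type) [Fintype V] [LinearOrder V] (G : SimpleGraph V),
      gammaL d G ∅ = gam d G := by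
    intro d V _ _ G
    unfold gammaL
    rw [Pool.Agent.N613.RP.lnk_empty, Finset.card_empty, Nat.sub_zero]
    rfl
  have hval : ∀ (a : ℕ → ℚ) (m d : ℕ) (V : Type) [Fintype V] [LinearOrder V] (G : SimpleGraph V),
      Pool.Agent.N613.RP.val a m d (fp G Set.univ) = ∑ i ∈ Finset.range m, a i * (gam d G i : ℚ) := by
    intro a m d V _ _ G
    rfl
  have hP : ∀ d : ℕ, Pool.Agent.N613.RP.Closed ℝ d (fun _ _ => True) := fun _ _ _ _ _ _ _ _ => trivial
  have h6 : ∀ (V : Type) [Fintype V] [LinearOrder V] (G : SimpleGraph V), Sph ℝ 6 G →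
      0 ≤ gam 6 G 2 + gam 6 G 3 := fun V _ _ G hG => Pool.Agent.Run7.h714.DU.gamma_six hG
  have h6r : ∀ (V : Type) [Fintype V] [LinearOrder V] (G : SimpleGraph V), Sph ℝ 6 G →
      ∀ I : Finset V, Tame G I → 0 ≤ refl G I (fun T => (gammaL 6 G T 2 : ℚ) + gammaL 6 G T 3) := by
    intro V _ _ G hG I hI
    have h1 := Pool.Agent.N613.RP.main (F := ℝ) (d := 6) (P := fun _ _ => True)
      (a := fun i => if i = 2 ∨ i = 3 then 1 else 0) (m := 4) (hP 6) (fun W _ _ H hH _ => by
        rw [hval, Finset.sum_range_succ, Finset.sum_range_succ, Finset.sum_range_succ, Finset.sum_range_one]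
        norm_num
        exact_mod_cast h6 W H hH) hG trivial I hI
    have h2 : ∀ R : Finset V, Pool.Agent.N613.RP.val (fun i => if i = 2 ∨ i = 3 then 1 else 0) 4 (6 - R.card)
        (fp G (lnk G R)) = (gammaL 6 G R 2 : ℚ) + gammaL 6 G R 3 := by
      intro R
      show ∑ i ∈ Finset.range 4, (if i = 2 ∨ i = 3 then (1 : ℚ) else 0) * (gammaL 6 G R i : ℚ) = _
      rw [Finset.sum_range_succ, Finset.sum_range_succ, Finset.sum_range_succ, Finset.sum_range_one]
      norm_num
    simp only [h2] at h1
    exact h1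
  have hd : ∀ d : ℕ, 6 ≤ d → ∀ (V : Type) [Fintype V] [LinearOrder V] (G : SimpleGraph V), Sph ℝ d G →
      0 ≤ tau d 3 G ∅ + (d - 4).choose 2 * tau d 2 G ∅ := by
    intro d hd V _ _ G hG
    have h1 := Pool.Agent.Run7.h714.DU.tau_ge hd (Pool.Agent.Run7.h714.DU.hsph_iff.1 hG) (gam_spec hG).1
    unfold tau
    rw [hgam]
    exact h1
  refine ⟨?_, ?_, ?_⟩
  · intro d V _ _ G hG
    exact ⟨hgam d V G, fun T hT => Pool.Agent.N613.RP.link_gam hG hT⟩
  · intro V _ _ G hG
    refine ⟨h6 V G hG, ?_, h6r V G hG⟩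
    intro v w hwv hvw
    have h3 := h6r V G hG {v, w} (by
      intro a ha b hb c hc hba hca _ _
      simp only [Finset.mem_insert, Finset.mem_singleton] at ha hb hc
      rcases ha with rfl | rfl <;> rcases hb with rfl | rfl <;> rcases hc with rfl | rfl <;>
        first | rfl | exact absurd rfl hba | exact absurd rfl hca)
    have h4 : ∀ g : Finset V → ℚ, refl G {v, w} g = g ∅ - 1 / 2 * g {v} - 1 / 2 * g {w} := by
      intro g
      have h5 := Pool.Agent.N613.RP.EE_pair (K := G) (I := ∅) (v := v) (w := w) (by simp) (by simp)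
        hwv.symm hvw (by simp) (by simp) g
      have h6 : ∀ g' : Finset V → ℚ, Pool.Agent.N613.RP.EE G ∅ g' = g' ∅ := by
        intro g'
        unfold Pool.Agent.N613.RP.EE
        simp
      rw [h6, h6, h6] at h5
      exact h5
    rw [h4, hgam] at h3
    have h5 : ∀ u : V, gammaL 6 G {u} 3 = 0 := by
      intro u
      have hu : G.IsClique (({u} : Finset V) : Set V) := by simp
      refine (Pool.Agent.N613.RP.link_gam hG hu).2 3 ?_
      rw [Finset.card_singleton]
      norm_num
    rw [h5, h5] at h3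
    have h6 : ((gammaL 6 G {v} 2 + gammaL 6 G {w} 2 : ℤ) : ℚ) ≤ ((2 * (gam 6 G 2 + gam 6 G 3) : ℤ) : ℚ) := by
      push_cast at h3 ⊢
      linarith
    exact_mod_cast h6
  · intro d hd6 V _ _ G hG
    refine ⟨hd d hd6 V G hG, ?_⟩
    intro I hI
    have h1 := Pool.Agent.N613.RP.main (F := ℝ) (d := d) (P := fun _ _ => True)
      (a := fun i => ((i.choose 3 : ℚ) + (d - 4).choose 2 * i.choose 2) / 4 ^ i) (m := d / 2 + 1) (hP d)
      (fun W _ _ H hH _ => by
        rw [hval]
        have h2 := hd d hd6 W H hH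
        unfold tau at h2
        rw [hgam, Finset.mul_sum, ← Finset.sum_add_distrib] at h2
        refine h2.trans (le_of_eq (Finset.sum_congr rfl fun i _ => ?_))
        ring) hG trivial I hI
    have h2 : ∀ R : Finset V, Pool.Agent.N613.RP.val
        (fun i => ((i.choose 3 : ℚ) + (d - 4).choose 2 * i.choose 2) / 4 ^ i) (d / 2 + 1) (d - R.card)
        (fp G (lnk G R)) = tau d 3 G R + (d - 4).choose 2 * tau d 2 G R := by
      intro R
      show ∑ i ∈ Finset.range (d / 2 + 1), (((i.choose 3 : ℚ) + (d - 4).choose 2 * i.choose 2) / 4 ^ i) *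
        (gammaL d G R i : ℚ) = _
      unfold tau
      rw [Finset.mul_sum, ← Finset.sum_add_distrib]
      refine Finset.sum_congr rfl fun i _ => ?_
      ring
    simp only [h2] at h1
    exact h1

end Pool.Agent.Results.MP_19e880_co.GammaTwoPlusThree
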